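import Mathlib
import Pool.Agent.Lib.Helper20.Simplicial

set_option autoImplicit false
open scoped Matrix.Norms.L2Operator
open Matrix

namespace Pool.Agent.Lib.H86I

open Pool.Agent.Lib.Helper20.Simplicial

universe u

variable {V : Type u} [Fintype V] [LinearOrder V]

/-- The faces of `K` with `m` vertices, that is, of dimension `m - 1`. -/
abbrev Face (K : PreAbstractSimplicialComplex V) (m : ℕ) : Type u :=
  {s : Finset V // s ∈ K ∧ s.card = m}

noncomputable instance instFintypeFace (K : PreAbstractSimplicialComplex V) (m : ℕ) :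
    Fintype (Face K m) := Fintype.ofFinite _

/-- The matrix of the boundary map `∂ k`. -/
noncomputable def boundary (K : PreAbstractSimplicialComplex V) (o : Finset V → ℤˣ) (k : ℕ) :
    Matrix (Face K k) (Face K (k + 1)) ℝ :=
  fun t s => ∑ v ∈ s.1, if t.1 = s.1.erase v then
    (((o t.1 * o s.1 : ℤˣ) : ℤ) : ℝ) * (-1 : ℝ) ^ (s.1.filter (fun w => w < v)).card else 0

/-- the order isomorphism with `Fin n` -/
noncomputable def eo (V : Type u) [Fintype V] [LinearOrder V] : V ≃o Fin (Fintype.card V) :=
  (Fintype.orderIsoFinOfCardEq V rfl).symm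

/-- transport of sets of vertices -/
noncomputable def phi (s : Finset V) : Finset (Fin (Fintype.card V)) :=
  s.map (eo V).toEquiv.toEmbedding

noncomputable def psi (s : Finset (Fin (Fintype.card V))) : Finset V :=
  s.map (eo V).symm.toEquiv.toEmbedding

theorem psi_phi (s : Finset V) : psi (phi s) = s := by
  unfold psi phi
  rw [Finset.map_map]
  ext x
  simp

theorem phi_psi (s : Finset (Fin (Fintype.card V))) : phi (psi s : Finset V) = s := by
  unfold psi phi
  rw [Finset.map_map]
  ext x
  simp

theorem card_phi (s : Finset V) : (phi s).card = s.card := Finset.card_map _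

theorem card_psi (s : Finset (Fin (Fintype.card V))) : (psi s : Finset V).card = s.card :=
  Finset.card_map _

theorem mem_psi (v : V) (s : Finset (Fin (Fintype.card V))) : v ∈ psi s ↔ eo V v ∈ s := by
  unfold psi
  simp only [Finset.mem_map]
  constructor
  · rintro ⟨a, ha, rfl⟩
    simpa using ha
  · intro h
    exact ⟨_, h, by simp⟩

theorem mem_phi (v : Fin (Fintype.card V)) (s : Finset V) : v ∈ phi s ↔ (eo V).symm v ∈ s := by
  unfold phi
  simp only [Finset.mem_map]
  constructor
  · rintro ⟨a, ha, rfl⟩
    simpa using ha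
  · intro h
    exact ⟨_, h, by simp⟩

theorem psi_insert (v : V) (s : Finset (Fin (Fintype.card V))) :
    psi (insert (eo V v) s) = insert v (psi s) := by
  ext w
  simp only [mem_psi, Finset.mem_insert, EmbeddingLike.apply_eq_iff_eq]

theorem psi_subset {s t : Finset (Fin (Fintype.card V))} (h : s ⊆ t) :
    (psi s : Finset V) ⊆ psi t := by
  intro v hv
  rw [mem_psi] at hv ⊢
  exact h hv

open Classical in
/-- the faces as a finite set of finite sets of `Fin n` -/
noncomputable def KF (K : PreAbstractSimplicialComplex V) :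
    Finset (Finset (Fin (Fintype.card V))) :=
  Finset.univ.filter (fun s => (psi s : Finset V) ∈ K)

theorem mem_KF (K : PreAbstractSimplicialComplex V) (s : Finset (Fin (Fintype.card V))) :
    s ∈ KF K ↔ (psi s : Finset V) ∈ K := by
  unfold KF
  simp

theorem KF_down (K : PreAbstractSimplicialComplex V) :
    ∀ s ∈ KF K, ∀ t : Finset (Fin (Fintype.card V)), t ⊆ s → t.Nonempty → t ∈ KF K := by
  intro s hs t ht hn
  rw [mem_KF] at hs ⊢
  refine (K.isRelLowerSet_faces hs).2 (psi_subset ht) ?_
  obtain ⟨x, hx⟩ := hn
  exact ⟨(eo V).symm x, by rw [mem_psi]; simpa using hx⟩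

open Classical in
/-- extension by zero of a chain -/
noncomputable def ext0 (K : PreAbstractSimplicialComplex V) (o : Finset V → ℤˣ) (m : ℕ)
    (y : Face K m → ℝ) : Finset (Fin (Fintype.card V)) → ℝ :=
  fun s => if h : (psi s : Finset V) ∈ K ∧ (psi s : Finset V).card = m then
    (((o (psi s) : ℤˣ) : ℤ) : ℝ) * y ⟨psi s, h⟩ else 0

theorem unit_sq (z : ℤˣ) : (((z : ℤˣ) : ℤ) : ℝ) * (((z : ℤˣ) : ℤ) : ℝ) = 1 := by
  rcases Int.units_eq_one_or z with rfl | rfl <;> simp

theorem sum_ext0 (K : PreAbstractSimplicialComplex V) (o : Finset V → ℤˣ) (m : ℕ)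
    (y : Face K m → ℝ) :
    ∑ s, ext0 K o m y s * ext0 K o m y s = ∑ s, y s * y s := by
  classical
  symm
  rw [← Finset.sum_filter_add_sum_filter_not (Finset.univ : Finset (Finset (Fin (Fintype.card V))))
    (fun s => (psi s : Finset V) ∈ K ∧ (psi s : Finset V).card = m)]
  rw [Finset.sum_eq_zero (s := Finset.univ.filter (fun s : Finset (Fin (Fintype.card V)) =>
    ¬ ((psi s : Finset V) ∈ K ∧ (psi s : Finset V).card = m))), add_zero]
  · refine Finset.sum_bij (fun s _ => phi s.1) ?_ ?_ ?_ ?_
    · intro s _
      simp only [Finset.mem_filter, Finset.mem_univ, true_and, psi_phi]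
      exact s.2
    · intro s _ t _ h
      have := congrArg psi h
      rw [psi_phi, psi_phi] at this
      exact Subtype.ext this
    · intro s hs
      simp only [Finset.mem_filter, Finset.mem_univ, true_and] at hs
      exact ⟨⟨psi s, hs⟩, Finset.mem_univ _, phi_psi s⟩
    · intro s _
      have hs : (psi (phi s.1) : Finset V) ∈ K ∧ (psi (phi s.1) : Finset V).card = m := by
        rw [psi_phi]; exact s.2
      have h2 : (⟨psi (phi s.1), hs⟩ : Face K m) = s := Subtype.ext (psi_phi s.1)
      unfold ext0
      rw [dif_pos hs, h2]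
      have := unit_sq (o (psi (phi s.1)))
      calc y s * y s = ((((o (psi (phi s.1)) : ℤˣ) : ℤ) : ℝ) * (((o (psi (phi s.1)) : ℤˣ) : ℤ) : ℝ)) *
            (y s * y s) := by rw [this, one_mul]
        _ = _ := by ring
  · intro s hs
    simp only [Finset.mem_filter, Finset.mem_univ, true_and] at hs
    unfold ext0
    rw [dif_neg hs, mul_zero]

/-- restriction of a function to the faces -/
noncomputable def rst (K : PreAbstractSimplicialComplex V) (o : Finset V → ℤˣ) (m : ℕ)
    (y : Finset (Fin (Fintype.card V)) → ℝ) : Face K m → ℝ :=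
  fun s => (((o s.1 : ℤˣ) : ℤ) : ℝ) * y (phi s.1)

theorem ext0_rst (K : PreAbstractSimplicialComplex V) (o : Finset V → ℤˣ) (m : ℕ)
    (y : Finset (Fin (Fintype.card V)) → ℝ) :
    ext0 K o m (rst K o m y) = res (KF K) m y := by
  funext s
  unfold ext0 res rst
  by_cases h : (psi s : Finset V) ∈ K ∧ (psi s : Finset V).card = m
  · rw [dif_pos h, if_pos (by rw [mem_KF, ← card_psi (V := V)]; exact h)]
    simp only [phi_psi]
    rw [← mul_assoc, unit_sq, one_mul]
  · rw [dif_neg h, if_neg (by rw [mem_KF, ← card_psi (V := V)]; exact h)]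

theorem res_ext0 (K : PreAbstractSimplicialComplex V) (o : Finset V → ℤˣ) (m : ℕ)
    (y : Face K m → ℝ) : res (KF K) m (ext0 K o m y) = ext0 K o m y := by
  funext s
  unfold ext0 res
  by_cases h : (psi s : Finset V) ∈ K ∧ (psi s : Finset V).card = m
  · rw [if_pos (by rw [mem_KF, ← card_psi (V := V)]; exact h)]
  · rw [dif_neg h, if_neg (by rw [mem_KF, ← card_psi (V := V)]; exact h)]

theorem filter_card (v : V) (s : Finset (Fin (Fintype.card V))) :
    ((psi s : Finset V).filter (fun w => w < v)).card = (s.filter (fun w => w < eo V v)).card := by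
  have : (psi s : Finset V).filter (fun w => w < v) = psi (s.filter (fun w => w < eo V v)) := by
    ext w
    simp only [Finset.mem_filter, mem_psi, OrderIso.lt_iff_lt]
  rw [this, card_psi]

/-- The boundary of an extended chain is the extension of the boundary. -/
theorem bd_ext0 (K : PreAbstractSimplicialComplex V) (o : Finset V → ℤˣ) (k : ℕ) (hk : 1 ≤ k)
    (y : Face K (k + 1) → ℝ) :
    bd (ext0 K o (k + 1) y) = ext0 K o k (boundary K o k *ᵥ y) := by
  classical
  funext t
  -- left-hand side as a sum over the vertices of `V`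
  have hL : bd (ext0 K o (k + 1) y) t = ∑ v : V, if v ∈ (psi t : Finset V) then 0 else
      if h : insert v (psi t) ∈ K ∧ (insert v (psi t) : Finset V).card = k + 1 then
        (-1 : ℝ) ^ ((psi t : Finset V).filter (fun w => w < v)).card *
        ((((o (insert v (psi t)) : ℤˣ) : ℤ) : ℝ) * y ⟨insert v (psi t), h⟩) else 0 := by
    unfold bd
    refine (Fintype.sum_equiv (eo V).toEquiv _ _ ?_).symm
    intro v
    show _ = an (eo V v) (ext0 K o (k + 1) y) t
    unfold an
    by_cases hv : v ∈ (psi t : Finset V)
    · rw [if_pos hv, if_pos ((mem_psi v t).mp hv)]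
    · rw [if_neg hv, if_neg (fun h => hv ((mem_psi v t).mpr h))]
      unfold ext0
      by_cases h : insert v (psi t) ∈ K ∧ (insert v (psi t) : Finset V).card = k + 1
      · have h' : (psi (insert (eo V v) t) : Finset V) ∈ K ∧
            (psi (insert (eo V v) t) : Finset V).card = k + 1 := by
          rw [psi_insert]; exact h
        rw [dif_pos h, dif_pos h']
        have e1 : (⟨psi (insert (eo V v) t), h'⟩ : Face K (k + 1)) = ⟨insert v (psi t), h⟩ :=
          Subtype.ext (psi_insert v t)
        rw [e1, psi_insert, filter_card]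
        rfl
      · have h' : ¬ ((psi (insert (eo V v) t) : Finset V) ∈ K ∧
            (psi (insert (eo V v) t) : Finset V).card = k + 1) := by
          rw [psi_insert]; exact h
        rw [dif_neg h, dif_neg h', mul_zero]
  rw [hL]
  unfold ext0
  by_cases ht : (psi t : Finset V) ∈ K ∧ (psi t : Finset V).card = k
  · rw [dif_pos ht]
    simp only [Matrix.mulVec, dotProduct]
    rw [Finset.mul_sum]
    -- right-hand side: swap the sums
    have hR : ∀ s : Face K (k + 1),
        (((o (psi t) : ℤˣ) : ℤ) : ℝ) * (boundary K o k ⟨psi t, ht⟩ s * y s) =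
        ∑ v : V, if v ∈ s.1 ∧ (psi t : Finset V) = s.1.erase v then
          (((o s.1 : ℤˣ) : ℤ) : ℝ) * (-1 : ℝ) ^ (s.1.filter (fun w => w < v)).card * y s else 0 := by
      intro s
      unfold boundary
      rw [Finset.sum_mul, Finset.mul_sum]
      rw [← Finset.sum_subset (Finset.subset_univ s.1)]
      · apply Finset.sum_congr rfl
        intro v hv
        by_cases h : (psi t : Finset V) = s.1.erase v
        · rw [if_pos h, if_pos ⟨hv, h⟩]
          have := unit_sq (o (psi t))
          push_cast
          calc (((o (psi t) : ℤˣ) : ℤ) : ℝ) * ((((o (psi t) : ℤˣ) : ℤ) : ℝ) * (((o s.1 : ℤˣ) : ℤ) : ℝ) *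
                (-1 : ℝ) ^ (s.1.filter (fun w => w < v)).card * y s)
              = ((((o (psi t) : ℤˣ) : ℤ) : ℝ) * (((o (psi t) : ℤˣ) : ℤ) : ℝ)) *
                ((((o s.1 : ℤˣ) : ℤ) : ℝ) * (-1 : ℝ) ^ (s.1.filter (fun w => w < v)).card * y s) := by
                ring
            _ = _ := by rw [this, one_mul]
        · rw [if_neg h, if_neg (fun h2 => h h2.2)]
          simp
      · intro v _ hv
        rw [if_neg (fun h => hv h.1)]
    rw [Finset.sum_congr rfl (fun s _ => hR s), Finset.sum_comm]
    apply Finset.sum_congr rfl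
    intro v _
    by_cases hv : v ∈ (psi t : Finset V)
    · rw [if_pos hv]
      symm
      apply Finset.sum_eq_zero
      intro s _
      rw [if_neg]
      rintro ⟨_, h2⟩
      rw [h2] at hv
      simp at hv
    · rw [if_neg hv]
      by_cases h : insert v (psi t) ∈ K ∧ (insert v (psi t) : Finset V).card = k + 1
      · rw [dif_pos h, Finset.sum_eq_single (⟨insert v (psi t), h⟩ : Face K (k + 1))]
        · rw [if_pos ⟨Finset.mem_insert_self _ _, (Finset.erase_insert hv).symm⟩]
          have : (insert v (psi t) : Finset V).filter (fun w => w < v) =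
              (psi t : Finset V).filter (fun w => w < v) := by
            rw [Finset.filter_insert, if_neg (lt_irrefl v)]
          simp only [this]
          ring
        · intro s _ hs
          rw [if_neg]
          rintro ⟨h1, h2⟩
          apply hs
          apply Subtype.ext
          show s.1 = insert v (psi t)
          rw [h2, Finset.insert_erase h1]
        · intro h3
          exact absurd (Finset.mem_univ _) h3
      · rw [dif_neg h]
        symm
        apply Finset.sum_eq_zero
        intro s _
        rw [if_neg]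
        rintro ⟨h1, h2⟩
        apply h
        rw [h2, Finset.insert_erase h1]
        exact s.2
  · rw [dif_neg ht]
    apply Finset.sum_eq_zero
    intro v _
    by_cases hv : v ∈ (psi t : Finset V)
    · rw [if_pos hv]
    · rw [if_neg hv, dif_neg]
      rintro ⟨h1, h2⟩
      apply ht
      rw [Finset.card_insert_of_notMem hv] at h2
      have h3 : (psi t : Finset V).card = k := by omega
      refine ⟨(K.isRelLowerSet_faces h1).2 (Finset.subset_insert _ _) ?_, h3⟩
      rw [Finset.card_pos.symm]
      omega

theorem key' (K : PreAbstractSimplicialComplex V) (o : Finset V → ℤˣ) (k : ℕ) (hk : 1 ≤ k) (c : ℝ)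
    (hc0 : 0 ≤ c)
    (hc : ∀ y : Face K (k + 1) → ℝ,
      ∑ t, (boundary K o k *ᵥ y) t * (boundary K o k *ᵥ y) t ≤ c * ∑ s, y s * y s)
    (x : Face K (k + 2) → ℝ) :
    ∑ t, (boundary K o (k + 1) *ᵥ x) t * (boundary K o (k + 1) *ᵥ x) t ≤ c * ∑ s, x s * x s := by
  have h := key (KF K) (KF_down K) k c (fun y => by
    rw [← ext0_rst K o, bd_ext0 K o k hk, sum_ext0]
    refine (hc _).trans ?_
    refine mul_le_mul_of_nonneg_left ?_ hc0
    rw [← sum_ext0 K o, ext0_rst]
    apply Finset.sum_le_sum
    intro t _
    unfold res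
    split_ifs
    · exact le_refl _
    · simp [mul_self_nonneg]) (ext0 K o (k + 2) x)
  rw [res_ext0, bd_ext0 K o (k + 1) (by omega), sum_ext0, sum_ext0] at h
  exact h

end Pool.Agent.Lib.H86I
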