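import Mathlib

set_option autoImplicit false
open scoped Matrix.Norms.L2Operator
open Matrix Module

namespace Pool.Agent.Lib.H86I

section abstract
variable {E F : Type*} [NormedAddCommGroup E] [InnerProductSpace ℝ E] [FiniteDimensional ℝ E]
  [NormedAddCommGroup F] [InnerProductSpace ℝ F] [FiniteDimensional ℝ F]

/-- The largest singular value bounds the stretch. -/
theorem norm_le_sv (T : E →ₗ[ℝ] F) (x : E) : ‖T x‖ ≤ T.singularValues 0 * ‖x‖ := by
  rcases subsingleton_or_nontrivial E with h | h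
  · rw [Subsingleton.elim x 0]; simp
  · set S := LinearMap.adjoint T ∘ₗ T with hS
    have hsym : S.IsSymmetric := T.isSymmetric_adjoint_comp_self
    have hev := hsym.hasEigenvalue_iSup_of_finiteDimensional
    have hpos : 0 < finrank ℝ E := finrank_pos
    obtain ⟨i, hi⟩ := hsym.exists_eigenvalues_eq rfl hev
    have h1 : hsym.eigenvalues rfl i ≤ T.singularValues 0 ^ 2 := by
      rw [T.sq_singularValues_of_lt rfl hpos]
      exact hsym.eigenvalues_antitone rfl (by
        show (⟨0, hpos⟩ : Fin (finrank ℝ E)) ≤ i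
        exact Fin.mk_le_of_le_val (Nat.zero_le _))
    have hnn := T.singularValues_nonneg 0
    by_cases hx : x = 0
    · rw [hx]; simp
    have hx' : 0 < ‖x‖ := norm_pos_iff.mpr hx
    have hq : ∀ z : E, inner ℝ (S z) z = ‖T z‖ ^ 2 := by
      intro z
      rw [hS, LinearMap.comp_apply, LinearMap.adjoint_inner_left, real_inner_self_eq_norm_sq]
    have hbdd : BddAbove (Set.range fun z : {z : E // z ≠ 0} =>
        RCLike.re (inner ℝ (S z) (z : E)) / ‖(z : E)‖ ^ 2) := by
      refine ⟨‖LinearMap.toContinuousLinearMap T‖ ^ 2, ?_⟩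
      rintro _ ⟨z, rfl⟩
      have hz : 0 < ‖(z : E)‖ := norm_pos_iff.mpr z.2
      show RCLike.re (inner ℝ (S z) (z : E)) / ‖(z : E)‖ ^ 2 ≤ _
      rw [hq, RCLike.re_to_real, div_le_iff₀ (by positivity), ← mul_pow]
      have := (LinearMap.toContinuousLinearMap T).le_opNorm (z : E)
      exact pow_le_pow_left₀ (norm_nonneg _) this 2
    have h2 : ‖T x‖ ^ 2 / ‖x‖ ^ 2 ≤
        ⨆ z : {z : E // z ≠ 0}, RCLike.re (inner ℝ (S z) (z : E)) / ‖(z : E)‖ ^ 2 := by
      have := le_ciSup hbdd ⟨x, hx⟩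
      simp only [hq, RCLike.re_to_real] at this ⊢
      exact this
    have h3 : (⨆ z : {z : E // z ≠ 0}, RCLike.re (inner ℝ (S z) (z : E)) / ‖(z : E)‖ ^ 2) =
        hsym.eigenvalues rfl i := by
      have := hi
      simpa using this.symm
    rw [h3] at h2
    have h4 := h2.trans h1
    rw [div_le_iff₀ (by positivity), ← mul_pow] at h4
    exact le_of_sq_le_sq h4 (by positivity)

theorem sv_le (T : E →ₗ[ℝ] F) (c : ℝ) (hc : 0 ≤ c) (h : ∀ x, ‖T x‖ ≤ c * ‖x‖) :
    T.singularValues 0 ≤ c := by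
  by_cases h0 : finrank ℝ E ≤ 0
  · rw [T.singularValues_of_finrank_le h0]; exact hc
  · push Not at h0
    obtain ⟨v, hv⟩ := (T.hasEigenvalue_adjoint_comp_self_sq_singularValues h0).exists_hasEigenvector
    have h1 := hv.apply_eq_smul
    have hv0 : 0 < ‖v‖ := norm_pos_iff.mpr hv.2
    have h2 : ‖T v‖ ^ 2 = T.singularValues 0 ^ 2 * ‖v‖ ^ 2 := by
      have : inner ℝ ((LinearMap.adjoint T ∘ₗ T) v) v = ‖T v‖ ^ 2 := by
        rw [LinearMap.comp_apply, LinearMap.adjoint_inner_left, real_inner_self_eq_norm_sq]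
      rw [← this, h1, real_inner_smul_left, real_inner_self_eq_norm_sq]
      rfl
    have h3 : ‖T v‖ = T.singularValues 0 * ‖v‖ := by
      have h4 : ‖T v‖ ^ 2 = (T.singularValues 0 * ‖v‖) ^ 2 := by rw [h2, mul_pow]
      exact (pow_left_inj₀ (norm_nonneg _)
        (mul_nonneg (T.singularValues_nonneg 0) hv0.le) two_ne_zero).mp h4
    have h5 := h v
    rw [h3] at h5
    exact le_of_mul_le_mul_right h5 hv0

end abstract

section matrix
variable {m n : Type*} [Fintype m] [Fintype n] [DecidableEq n] [DecidableEq m]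

omit [DecidableEq m] in
theorem norm_sq_eq (x : EuclideanSpace ℝ m) : ‖x‖ ^ 2 = ∑ i, x i * x i := by
  rw [EuclideanSpace.norm_sq_eq]
  apply Finset.sum_congr rfl
  intro i _
  rw [Real.norm_eq_abs, sq_abs, sq]

/-- comparison of the largest singular values through the squared stretch -/
theorem sv_le_sv {m' n' : Type*} [Fintype m'] [Fintype n'] [DecidableEq n'] [DecidableEq m']
    (A : Matrix m n ℝ) (B : Matrix m' n' ℝ)
    (h : ∀ c : ℝ, 0 ≤ c → (∀ y : n → ℝ, ∑ t, (A *ᵥ y) t * (A *ᵥ y) t ≤ c * ∑ s, y s * y s) →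
      ∀ y : n' → ℝ, ∑ t, (B *ᵥ y) t * (B *ᵥ y) t ≤ c * ∑ s, y s * y s) :
    (toEuclideanLin B).singularValues 0 ≤ (toEuclideanLin A).singularValues 0 := by
  have hnn := (toEuclideanLin A).singularValues_nonneg 0
  refine sv_le _ _ hnn ?_
  intro x
  have h1 := h ((toEuclideanLin A).singularValues 0 ^ 2) (by positivity) (fun y => by
    have h2 := norm_le_sv (toEuclideanLin A) (WithLp.toLp 2 y)
    have h3 : ‖toEuclideanLin A (WithLp.toLp 2 y)‖ ^ 2 ≤
        ((toEuclideanLin A).singularValues 0 * ‖(WithLp.toLp 2 y : EuclideanSpace ℝ n)‖) ^ 2 :=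
      pow_le_pow_left₀ (norm_nonneg _) h2 2
    rw [mul_pow, norm_sq_eq, norm_sq_eq] at h3
    exact h3) x.ofLp
  have h4 : ‖toEuclideanLin B x‖ ^ 2 ≤ ((toEuclideanLin A).singularValues 0 * ‖x‖) ^ 2 := by
    rw [mul_pow, norm_sq_eq, norm_sq_eq]
    exact h1
  exact le_of_sq_le_sq h4 (by positivity)

/-- the adjoint of the map of a real matrix is the map of its transpose -/
theorem adjoint_toEuclideanLin (A : Matrix m n ℝ) :
    LinearMap.adjoint (toEuclideanLin A) = toEuclideanLin Aᵀ := by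
  rw [← Matrix.toEuclideanLin_conjTranspose_eq_adjoint, Matrix.conjTranspose_eq_transpose_of_trivial]

theorem comp_toEuclideanLin (A : Matrix m n ℝ) :
    toEuclideanLin A ∘ₗ toEuclideanLin Aᵀ = toEuclideanLin (A * Aᵀ) := by
  apply LinearMap.ext
  intro x
  ext i
  show (A *ᵥ (Aᵀ *ᵥ x.ofLp)) i = ((A * Aᵀ) *ᵥ x.ofLp) i
  rw [Matrix.mulVec_mulVec]

theorem norm_transpose_le (A : Matrix m n ℝ) (x : EuclideanSpace ℝ m) :
    ‖toEuclideanLin Aᵀ x‖ ≤ (toEuclideanLin A).singularValues 0 * ‖x‖ := by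
  have hnn := (toEuclideanLin A).singularValues_nonneg 0
  by_cases h0 : ‖toEuclideanLin Aᵀ x‖ = 0
  · rw [h0]; positivity
  have h1 : ‖toEuclideanLin Aᵀ x‖ ^ 2 = inner ℝ (toEuclideanLin A (toEuclideanLin Aᵀ x)) x := by
    rw [← adjoint_toEuclideanLin, ← real_inner_self_eq_norm_sq, LinearMap.adjoint_inner_right]
  have h2 := real_inner_le_norm (toEuclideanLin A (toEuclideanLin Aᵀ x)) x
  have h3 := norm_le_sv (toEuclideanLin A) (toEuclideanLin Aᵀ x)
  have h4 : 0 < ‖toEuclideanLin Aᵀ x‖ := lt_of_le_of_ne (norm_nonneg _) (Ne.symm h0)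
  have h5 : ‖toEuclideanLin Aᵀ x‖ * ‖toEuclideanLin Aᵀ x‖ ≤
      ((toEuclideanLin A).singularValues 0 * ‖x‖) * ‖toEuclideanLin Aᵀ x‖ := by
    calc ‖toEuclideanLin Aᵀ x‖ * ‖toEuclideanLin Aᵀ x‖ = ‖toEuclideanLin Aᵀ x‖ ^ 2 := by ring
      _ ≤ ‖toEuclideanLin A (toEuclideanLin Aᵀ x)‖ * ‖x‖ := by rw [h1]; exact h2
      _ ≤ ((toEuclideanLin A).singularValues 0 * ‖toEuclideanLin Aᵀ x‖) * ‖x‖ :=
        mul_le_mul_of_nonneg_right h3 (norm_nonneg _)
      _ = _ := by ring
  exact le_of_mul_le_mul_right h5 h4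

/-- every eigenvalue of `A Aᵀ` is at most the square of the largest singular value of `A` -/
theorem eigenvalue_le (A : Matrix m n ℝ) (μ : ℝ)
    (h : End.HasEigenvalue (toEuclideanLin (A * Aᵀ)) μ) :
    μ ≤ (toEuclideanLin A).singularValues 0 ^ 2 := by
  obtain ⟨v, hv⟩ := h.exists_hasEigenvector
  have h1 := hv.apply_eq_smul
  have hv0 : 0 < ‖v‖ := norm_pos_iff.mpr hv.2
  have h2 : ‖toEuclideanLin Aᵀ v‖ ^ 2 = μ * ‖v‖ ^ 2 := by
    have : inner ℝ (toEuclideanLin (A * Aᵀ) v) v = ‖toEuclideanLin Aᵀ v‖ ^ 2 := by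
      rw [← comp_toEuclideanLin, LinearMap.comp_apply, ← adjoint_toEuclideanLin,
        ← LinearMap.adjoint_inner_right, real_inner_self_eq_norm_sq]
    rw [← this, h1, real_inner_smul_left, real_inner_self_eq_norm_sq]
  have h3 := pow_le_pow_left₀ (norm_nonneg _) (norm_transpose_le A v) 2
  rw [h2, mul_pow] at h3
  exact le_of_mul_le_mul_right h3 (by positivity)

/-- the square of the largest singular value of `A` is at most some eigenvalue of `A Aᵀ` -/
theorem exists_eigenvalue (A : Matrix m n ℝ) [Nonempty m] :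
    ∃ ν, (toEuclideanLin A).singularValues 0 ^ 2 ≤ ν ∧
      End.HasEigenvalue (toEuclideanLin (A * Aᵀ)) ν := by
  have hpos : 0 < finrank ℝ (EuclideanSpace ℝ m) := by
    rw [finrank_euclideanSpace]
    exact Fintype.card_pos
  refine ⟨(toEuclideanLin Aᵀ).singularValues 0 ^ 2, ?_, ?_⟩
  · refine pow_le_pow_left₀ ((toEuclideanLin A).singularValues_nonneg 0) ?_ 2
    refine sv_le _ _ ((toEuclideanLin Aᵀ).singularValues_nonneg 0) ?_
    intro x
    have := norm_transpose_le Aᵀ x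
    rwa [Matrix.transpose_transpose] at this
  · have h := (toEuclideanLin Aᵀ).hasEigenvalue_adjoint_comp_self_sq_singularValues hpos
    rw [adjoint_toEuclideanLin, Matrix.transpose_transpose, comp_toEuclideanLin] at h
    exact h

end matrix

end Pool.Agent.Lib.H86I
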