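import Mathlib
import Pool.Agent.Lib.H86I.SigmaMax

set_option autoImplicit false
open Matrix Module

namespace Pool.Agent.Lib.H86I

variable {m n : Type*} [Fintype m] [Fintype n] [DecidableEq m] [DecidableEq n]

theorem isEig_iff (A : Matrix m m ℝ) (μ : ℝ) :
    (∃ x : m → ℝ, x ≠ 0 ∧ A *ᵥ x = μ • x) ↔ End.HasEigenvalue (Matrix.toEuclideanLin A) μ := by
  constructor
  · rintro ⟨x, hx, hμ⟩
    refine End.hasEigenvalue_of_hasEigenvector (x := WithLp.toLp 2 x) ⟨?_, ?_⟩
    · rw [End.mem_eigenspace_iff]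
      exact congrArg (WithLp.toLp 2) hμ
    · intro h0
      exact hx (congrArg WithLp.ofLp h0)
  · intro h
    obtain ⟨v, hv⟩ := h.exists_hasEigenvector
    refine ⟨v.ofLp, fun h0 => hv.2 ?_, congrArg WithLp.ofLp hv.apply_eq_smul⟩
    ext i
    exact congrFun h0 i

theorem sv_transpose_le (A : Matrix m n ℝ) :
    (toEuclideanLin Aᵀ).singularValues 0 ≤ (toEuclideanLin A).singularValues 0 :=
  sv_le _ _ ((toEuclideanLin A).singularValues_nonneg 0) (norm_transpose_le A)

/-- The supremum of the square roots of the eigenvalues of `Aᵀ A` is the largest singular value. -/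
theorem sSup_eq (A : Matrix m n ℝ) :
    sSup {σ : ℝ | ∃ μ : ℝ, (∃ x : n → ℝ, x ≠ 0 ∧ (Aᵀ * A) *ᵥ x = μ • x) ∧ σ = Real.sqrt μ} =
      (toEuclideanLin A).singularValues 0 := by
  set s0 := (toEuclideanLin A).singularValues 0 with hs0
  have hnn : 0 ≤ s0 := (toEuclideanLin A).singularValues_nonneg 0
  rcases isEmpty_or_nonempty n with hn | hn
  · have h1 : {σ : ℝ | ∃ μ : ℝ, (∃ x : n → ℝ, x ≠ 0 ∧ (Aᵀ * A) *ᵥ x = μ • x) ∧
        σ = Real.sqrt μ} = ∅ := by
      apply Set.eq_empty_of_forall_notMem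
      rintro σ ⟨μ, ⟨x, hx, -⟩, -⟩
      exact hx (Subsingleton.elim _ _)
    rw [h1, Real.sSup_empty, hs0, (toEuclideanLin A).singularValues_of_finrank_le]
    rw [finrank_euclideanSpace, Fintype.card_eq_zero]
  · apply IsGreatest.csSup_eq
    constructor
    · refine ⟨s0 ^ 2, ?_, (Real.sqrt_sq hnn).symm⟩
      rw [isEig_iff]
      have hpos : 0 < finrank ℝ (EuclideanSpace ℝ n) := by
        rw [finrank_euclideanSpace]
        exact Fintype.card_pos
      have h := (toEuclideanLin A).hasEigenvalue_adjoint_comp_self_sq_singularValues hpos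
      rw [adjoint_toEuclideanLin] at h
      have h2 := comp_toEuclideanLin Aᵀ
      rw [Matrix.transpose_transpose] at h2
      rw [h2] at h
      exact h
    · rintro σ ⟨μ, hμ, rfl⟩
      rw [isEig_iff] at hμ
      have h1 := eigenvalue_le Aᵀ μ (by rw [Matrix.transpose_transpose]; exact hμ)
      have h2 := sv_transpose_le A
      have h3 : μ ≤ s0 ^ 2 :=
        h1.trans (pow_le_pow_left₀ ((toEuclideanLin Aᵀ).singularValues_nonneg 0) h2 2)
      calc Real.sqrt μ ≤ Real.sqrt (s0 ^ 2) := Real.sqrt_le_sqrt h3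
        _ = s0 := Real.sqrt_sq hnn

end Pool.Agent.Lib.H86I
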